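import Pool.Agent.TH855.Veronese.Wedge

set_option autoImplicit false

namespace Pool.TH855.Veronese

open MvPolynomial Finset

variable {k : Type} [Field k] {n d : ℕ} [LinearOrder (Mon n d)]

lemma sg_swap {a b : Mon n d} {T : Finset (Mon n d)} (ha : a ∉ T) (hb : b ∉ T) (hab : a ≠ b) :
    sg k a T * sg k b (insert a T) = - (sg k b T * sg k a (insert b T)) := by
  rcases lt_or_gt_of_ne hab with h | h
  · rw [sg_insert_lt ha h, sg_insert_gt h]; ring
  · rw [sg_insert_gt h, sg_insert_lt hb h]; ring

/-- `diff` is a differential -/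
theorem diff_diff (c : Fam k n d) : diff k n d (diff k n d c) = 0 := by
  classical
  funext T
  rw [Pi.zero_apply, diff_apply]
  have h1 : ∀ a ∈ Tᶜ, sg k a T * (monomial a.exp 1 * diff k n d c (insert a T)) =
      ∑ b ∈ Tᶜ, if a = b then 0 else sg k a T * sg k b (insert a T) *
        (monomial a.exp 1 * monomial b.exp 1 * c (insert b (insert a T))) := by
    intro a ha
    rw [diff_apply, mul_sum, mul_sum]
    have h2 : Tᶜ = insert a (insert a T)ᶜ := by
      ext b
      rw [mem_compl] at ha
      simp only [mem_compl, mem_insert]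
      constructor
      · intro h
        by_cases hba : b = a
        · exact Or.inl hba
        · exact Or.inr fun h' => h'.elim hba h
      · rintro (h | h)
        · rw [h]; exact ha
        · exact fun h' => h (Or.inr h')
    rw [h2, sum_insert (by simp), if_pos rfl, zero_add]
    refine sum_congr rfl fun b hb => ?_
    have hab : a ≠ b := by
      rintro rfl
      simp at hb
    rw [if_neg hab]
    ring
  rw [sum_congr rfl h1, ← sum_product']
  refine sum_involution (fun x _ => (x.2, x.1)) ?_ ?_ ?_ ?_
  · rintro ⟨a, b⟩ hx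
    simp only [mem_product, mem_compl] at hx
    by_cases hab : a = b
    · simp [hab]
    · simp only [if_neg hab, if_neg (Ne.symm hab)]
      rw [sg_swap hx.1 hx.2 hab, insert_comm a b T]
      ring
  · rintro ⟨a, b⟩ _ hne heq
    simp only [Prod.mk.injEq] at heq
    apply hne
    simp [heq.2]
  · rintro ⟨a, b⟩ hx
    simp only [mem_product] at hx ⊢
    exact ⟨hx.2, hx.1⟩
  · rintro ⟨a, b⟩ _
    rfl

/-- `diff` maps `Λ^{p+1} ⊗ S^m` to `Λ^p ⊗ S^{m+d}` -/
theorem diff_mem_chains {p m : ℕ} {c : Fam k n d} (hc : c ∈ chains k n d (p + 1) m) :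
    diff k n d c ∈ chains k n d p (m + d) := by
  obtain ⟨h1, h2⟩ := hc
  refine ⟨fun T hT => ?_, fun T => ?_⟩
  · rw [diff_apply]
    refine sum_eq_zero fun a ha => ?_
    rw [h1, mul_zero, mul_zero]
    rw [card_insert_of_notMem (by simpa using ha)]
    omega
  · rw [diff_apply]
    refine IsHomogeneous.sum _ _ _ fun a _ => ?_
    have h3 : (monomial a.exp (1 : k) * c (insert a T)).IsHomogeneous (m + d) := by
      rw [add_comm m d]
      exact (isHomogeneous_monomial _ a.degree_exp).mul (h2 _)
    rcases sg_eq (k := k) a T with hs | hs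
    · rw [hs, one_mul]; exact h3
    · rw [hs, neg_one_mul]; exact h3.neg

/-- boundaries are cycles -/
theorem boundaries_le_cycles (p m : ℕ) :
    (chains k n d (p + 1) m).map (diff k n d) ≤ cycles k n d p (m + d) := by
  rintro _ ⟨c, hc, rfl⟩
  exact ⟨diff_mem_chains hc, LinearMap.mem_ker.2 (diff_diff c)⟩

end Pool.TH855.Veronese
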