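import Pool.Agent.TH855.Veronese.Indep

set_option autoImplicit false

namespace Pool.TH855.Veronese

open MvPolynomial Finset

variable {n d : ℕ}

lemma mem_antidiag (s : Finset (Fin (n + 1))) (a : Fin (n + 1) →₀ ℕ) :
    a ∈ finsuppAntidiag s d ↔ a.degree = d ∧ ∀ i ∉ s, a i = 0 := by
  rw [mem_finsuppAntidiag]
  constructor
  · rintro ⟨h1, h2⟩
    have h3 : ∀ i ∉ s, a i = 0 := fun i hi => Finsupp.notMem_support_iff.1 fun h => hi (h2 h)
    refine ⟨?_, h3⟩
    rw [← h1, Finsupp.degree_eq_sum]
    exact (sum_subset (subset_univ s) fun i _ hi => h3 i hi).symm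
  · rintro ⟨h1, h3⟩
    refine ⟨?_, fun i hi => ?_⟩
    · rw [← h1, Finsupp.degree_eq_sum]
      exact sum_subset (subset_univ s) fun i _ hi => h3 i hi
    · by_contra h
      exact Finsupp.mem_support_iff.1 hi (h3 i h)

lemma eq_single {a : Fin (n + 1) →₀ ℕ} (h : a.degree = d) {i : Fin (n + 1)} (hi : d ≤ a i) :
    a = Finsupp.single i d := by
  rw [Finsupp.degree_eq_sum, ← add_sum_erase _ _ (mem_univ i)] at h
  have h1 : ∑ x ∈ univ.erase i, a x = 0 := by omega
  have h2 : a i = d := by omega
  rw [sum_eq_zero_iff] at h1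
  ext j
  rw [Finsupp.single_apply]
  split_ifs with hij
  · rw [← hij, h2]
  · exact h1 j (mem_erase.2 ⟨Ne.symm hij, mem_univ _⟩)

lemma card_shift (s : Finset (Fin (n + 1))) {i : Fin (n + 1)} (hi : i ∈ s) {t : ℕ} (ht : t ≤ d) :
    ((finsuppAntidiag s d).filter (fun a => t ≤ a i)).card =
      (s.card + (d - t) - 1).choose (d - t) := by
  rw [← card_finsuppAntidiag_nat_eq_choose]
  apply card_nbij' (fun a => a - Finsupp.single i t) (fun a => a + Finsupp.single i t)
  · intro a ha
    rw [mem_coe, mem_filter, mem_antidiag] at ha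
    obtain ⟨⟨h1, h2⟩, h3⟩ := ha
    rw [mem_coe, mem_antidiag]
    have h4 : Finsupp.single i t ≤ a := by
      intro j
      rw [Finsupp.single_apply]
      split_ifs with h
      · rw [← h]; exact h3
      · exact Nat.zero_le _
    have h5 : a - Finsupp.single i t + Finsupp.single i t = a := tsub_add_cancel_of_le h4
    have h6 := congrArg Finsupp.degree h5
    rw [map_add, Finsupp.degree_single, h1] at h6
    refine ⟨?_, fun j hj => ?_⟩
    · show (a - Finsupp.single i t).degree = d - t
      omega
    · rw [Finsupp.tsub_apply, h2 j hj, Nat.zero_sub]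
  · intro a ha
    rw [mem_coe, mem_antidiag] at ha
    obtain ⟨h1, h2⟩ := ha
    rw [mem_coe, mem_filter, mem_antidiag]
    refine ⟨⟨?_, fun j hj => ?_⟩, ?_⟩
    · rw [map_add, Finsupp.degree_single, h1]; omega
    · have hij : i ≠ j := by
        rintro rfl
        exact hj hi
      rw [Finsupp.add_apply, h2 j hj, Finsupp.single_apply, if_neg hij, add_zero]
    · simp
  · intro a ha
    rw [mem_coe, mem_filter, mem_antidiag] at ha
    obtain ⟨⟨h1, h2⟩, h3⟩ := ha
    apply tsub_add_cancel_of_le
    intro j
    rw [Finsupp.single_apply]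
    split_ifs with h
    · rw [← h]; exact h3
    · exact Nat.zero_le _
  · intro a _
    simp

lemma card_image_single (s : Finset (Fin (n + 1))) (hd : 1 ≤ d) :
    (s.image (fun i => (Finsupp.single i d : Fin (n + 1) →₀ ℕ))).card = s.card := by
  apply card_image_of_injective
  intro i j hij
  have := DFunLike.congr_fun hij i
  rw [Finsupp.single_eq_same, Finsupp.single_apply] at this
  split_ifs at this with h
  · exact h.symm
  · omega

/-- the monomial `x_0^{d-1} ⋯ x_{q-1}^{d-1} x_q^{q+b}` -/
noncomputable def fexp (n d q b : ℕ) : Fin (n + 1) →₀ ℕ :=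
  Finsupp.equivFunOnFinite.symm
    (fun i => if i.1 < q then d - 1 else if i.1 = q then q + b else 0)

lemma fexp_apply (q b : ℕ) (i : Fin (n + 1)) :
    fexp n d q b i = if i.1 < q then d - 1 else if i.1 = q then q + b else 0 := rfl

lemma degree_fexp (q b : ℕ) (hq : q ≤ n) (hd : 1 ≤ d) : (fexp n d q b).degree = q * d + b := by
  rw [Finsupp.degree_eq_sum]
  simp only [fexp_apply]
  have h1 : ∀ i : Fin (n + 1), (if i.1 < q then d - 1 else if i.1 = q then q + b else 0) =
      (if i.1 < q then d - 1 else 0) + (if i.1 = q then q + b else 0) := by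
    intro i
    split_ifs <;> omega
  rw [sum_congr rfl fun i _ => h1 i, sum_add_distrib]
  have h2 : ∑ i : Fin (n + 1), (if i.1 < q then d - 1 else 0) = q * (d - 1) := by
    rw [← sum_filter, sum_const, smul_eq_mul]
    congr 1
    have : (univ.filter fun i : Fin (n + 1) => i.1 < q) = Iio (⟨q, by omega⟩ : Fin (n + 1)) := by
      ext i
      simp [Fin.lt_def]
    rw [this, Fin.card_Iio]
  have h3 : ∑ i : Fin (n + 1), (if i.1 = q then q + b else 0) = q + b := by
    rw [sum_eq_single_of_mem (⟨q, by omega⟩ : Fin (n + 1)) (mem_univ _)]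
    · simp
    · intro i _ hi
      rw [if_neg]
      intro h
      exact hi (Fin.ext h)
  rw [h2, h3]
  obtain ⟨e, rfl⟩ : ∃ e, d = e + 1 := ⟨d - 1, by omega⟩
  simp only [Nat.add_sub_cancel]
  ring

open Classical in
/-- monomials of degree `d` dividing `f` -/
noncomputable def DD (n d q b : ℕ) : Finset (Mon n d) := univ.filter fun a => a.exp ≤ fexp n d q b

open Classical in
/-- monomials of degree `d`, not pure powers, killing `f` modulo the `x_i^d` -/
noncomputable def ZZ (n d q b : ℕ) : Finset (Mon n d) :=
  univ.filter fun a => (∀ i, a ≠ pure n d i) ∧ ∃ j, d ≤ fexp n d q b j + a.exp j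

lemma mem_DD {q b : ℕ} {a : Mon n d} : a ∈ DD n d q b ↔ a.exp ≤ fexp n d q b := by
  simp [DD]

lemma mem_ZZ {q b : ℕ} {a : Mon n d} : a ∈ ZZ n d q b ↔
    (∀ i, a ≠ pure n d i) ∧ ∃ j, d ≤ fexp n d q b j + a.exp j := by
  simp [ZZ]

lemma card_filter_exp (P : (Fin (n + 1) →₀ ℕ) → Prop) [DecidablePred P]
    [DecidablePred fun a : Mon n d => P a.exp] :
    (univ.filter fun a : Mon n d => P a.exp).card = ((finsuppAntidiag univ d).filter P).card := by
  rw [← card_map ⟨Mon.exp, Mon.exp_injective n d⟩]
  congr 1
  ext a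
  simp only [mem_map, mem_filter, mem_univ, true_and, Function.Embedding.coeFn_mk, mem_antidiag,
    not_true_eq_false, false_implies, implies_true, and_true]
  constructor
  · rintro ⟨x, hx, rfl⟩
    exact ⟨x.degree_exp, hx⟩
  · rintro ⟨h1, h2⟩
    exact ⟨⟨a, h1⟩, h2, rfl⟩

lemma pure_iff (a : Mon n d) (i : Fin (n + 1)) : a = pure n d i ↔ a.exp = Finsupp.single i d :=
  ⟨fun h => by rw [h]; rfl, fun h => Mon.ext h⟩

lemma card_DD (q b : ℕ) (hq : q ≤ n) (hd : b + q + 1 ≤ d) :
    (DD n d q b).card + (d - b - 1).choose q + q = (d + q).choose q := by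
  classical
  set qi : Fin (n + 1) := ⟨q, by omega⟩ with hqi
  have hA : (finsuppAntidiag (Iic qi) d).card = (d + q).choose q := by
    rw [card_finsuppAntidiag_nat_eq_choose, Fin.card_Iic, hqi]
    simp only
    rw [show q + 1 + d - 1 = d + q by omega]
    exact Nat.choose_symm_add
  have hB : ((finsuppAntidiag (Iic qi) d).filter (fun a => q + b + 1 ≤ a qi)).card =
      (d - b - 1).choose q := by
    rw [card_shift _ (mem_Iic.2 le_rfl) (by omega), Fin.card_Iic, hqi]
    simp only
    rw [show q + 1 + (d - (q + b + 1)) - 1 = d - b - 1 by omega]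
    rw [← Nat.choose_symm (by omega)]
    congr 1
    omega
  have hP : ((Iio qi).image (fun i => (Finsupp.single i d : Fin (n + 1) →₀ ℕ))).card = q := by
    rw [card_image_single _ (by omega), Fin.card_Iio]
  have hDc : (DD n d q b).card =
      ((finsuppAntidiag univ d).filter (fun a => a ≤ fexp n d q b)).card := by
    unfold DD
    exact card_filter_exp (fun a => a ≤ fexp n d q b)
  have key : finsuppAntidiag (Iic qi) d =
      ((finsuppAntidiag univ d).filter (fun a => a ≤ fexp n d q b)) ∪
      ((finsuppAntidiag (Iic qi) d).filter (fun a => q + b + 1 ≤ a qi)) ∪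
      ((Iio qi).image (fun i => (Finsupp.single i d : Fin (n + 1) →₀ ℕ))) := by
    ext a
    simp only [mem_union, mem_filter, mem_antidiag, mem_univ, not_true_eq_false, false_implies,
      implies_true, and_true, mem_image, mem_Iio, mem_Iic]
    constructor
    · rintro ⟨h1, h2⟩
      by_cases h3 : q + b + 1 ≤ a qi
      · exact Or.inl (Or.inr ⟨⟨h1, h2⟩, h3⟩)
      by_cases h4 : ∃ i, i < qi ∧ d ≤ a i
      · obtain ⟨i, hi, h5⟩ := h4
        exact Or.inr ⟨i, hi, (eq_single h1 h5).symm⟩
      push Not at h4
      left; left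
      refine ⟨h1, fun i => ?_⟩
      rw [fexp_apply]
      split_ifs with h5 h6
      · have := h4 i (by rw [Fin.lt_def]; exact h5)
        omega
      · have : i = qi := Fin.ext h6
        rw [this]; omega
      · rw [h2 i (by rw [Fin.le_def]; simp only [hqi]; omega)]
    · rintro ((⟨h1, h2⟩ | ⟨⟨h1, h2⟩, h3⟩) | ⟨i, hi, rfl⟩)
      · refine ⟨h1, fun i hi => ?_⟩
        have h3 := h2 i
        rw [fexp_apply] at h3
        rw [Fin.le_def] at hi
        simp only [hqi] at hi
        rw [if_neg (by omega), if_neg (by omega)] at h3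
        omega
      · exact ⟨h1, h2⟩
      · refine ⟨Finsupp.degree_single _ _, fun j hj => ?_⟩
        rw [Finsupp.single_apply, if_neg]
        rintro rfl
        exact hj hi.le
  have hdis1 : Disjoint ((finsuppAntidiag univ d).filter (fun a => a ≤ fexp n d q b))
      ((finsuppAntidiag (Iic qi) d).filter (fun a => q + b + 1 ≤ a qi)) := by
    rw [disjoint_left]
    intro a ha hb
    have h1 := (mem_filter.1 ha).2 qi
    have h2 := (mem_filter.1 hb).2
    rw [fexp_apply] at h1
    simp only [hqi, lt_irrefl, if_false, if_true] at h1 h2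
    omega
  have hdis2 : Disjoint (((finsuppAntidiag univ d).filter (fun a => a ≤ fexp n d q b)) ∪
      ((finsuppAntidiag (Iic qi) d).filter (fun a => q + b + 1 ≤ a qi)))
      ((Iio qi).image (fun i => (Finsupp.single i d : Fin (n + 1) →₀ ℕ))) := by
    rw [disjoint_left]
    intro a ha hb
    obtain ⟨i, hi, rfl⟩ := mem_image.1 hb
    rw [mem_Iio, Fin.lt_def] at hi
    rcases mem_union.1 ha with h | h
    · have h1 := (mem_filter.1 h).2 i
      rw [fexp_apply, Finsupp.single_eq_same, if_pos hi] at h1
      omega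
    · have h1 := (mem_filter.1 h).2
      rw [Finsupp.single_apply, if_neg] at h1
      · omega
      · rintro rfl
        exact lt_irrefl _ hi
  have := congrArg Finset.card key
  rw [card_union_of_disjoint hdis2, card_union_of_disjoint hdis1, hA, hB, hP, ← hDc] at this
  exact this.symm

lemma card_ZZ (q b : ℕ) (hq : q ≤ n) (hd : b + q + 1 ≤ d) :
    (ZZ n d q b).card + (d + n - q).choose (n - q) + q + 1 =
      (d + n).choose n + (n + b).choose (n - q) := by
  classical
  set qi : Fin (n + 1) := ⟨q, by omega⟩ with hqi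
  have hA : (finsuppAntidiag (Ici qi) d).card = (d + n - q).choose (n - q) := by
    rw [card_finsuppAntidiag_nat_eq_choose, Fin.card_Ici, hqi]
    simp only
    rw [show n + 1 - q + d - 1 = d + (n - q) by omega, show d + n - q = d + (n - q) by omega]
    exact Nat.choose_symm_add
  have hB : ((finsuppAntidiag (Ici qi) d).filter (fun a => d - (q + b) ≤ a qi)).card =
      (n + b).choose (n - q) := by
    rw [card_shift _ (mem_Ici.2 le_rfl) (by omega), Fin.card_Ici, hqi]
    simp only
    rw [show n + 1 - q + (d - (d - (q + b))) - 1 = n + b by omega]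
    rw [← Nat.choose_symm (by omega)]
    congr 1
    omega
  have hP : ((Ioi qi).image (fun i => (Finsupp.single i d : Fin (n + 1) →₀ ℕ))).card = n - q := by
    rw [card_image_single _ (by omega), Fin.card_Ioi]
    simp only [hqi]
    omega
  have hM : (finsuppAntidiag (univ : Finset (Fin (n + 1))) d).card = (d + n).choose n := by
    rw [card_finsuppAntidiag_nat_eq_choose, card_univ, Fintype.card_fin]
    rw [show n + 1 + d - 1 = d + n by omega]
    exact Nat.choose_symm_add
  have hQ : ((univ : Finset (Fin (n + 1))).image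
      (fun i => (Finsupp.single i d : Fin (n + 1) →₀ ℕ))).card = n + 1 := by
    rw [card_image_single _ (by omega), card_univ, Fintype.card_fin]
  -- the set N
  set N : Finset (Fin (n + 1) →₀ ℕ) := (finsuppAntidiag univ d).filter
    (fun a => (∀ i, a ≠ Finsupp.single i d) ∧ ∀ j, fexp n d q b j + a j < d) with hN
  set Z' : Finset (Fin (n + 1) →₀ ℕ) := (finsuppAntidiag univ d).filter
    (fun a => (∀ i, a ≠ Finsupp.single i d) ∧ ∃ j, d ≤ fexp n d q b j + a j) with hZ'
  have hZc : (ZZ n d q b).card = Z'.card := by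
    unfold ZZ
    rw [hZ', ← card_filter_exp]
    congr 1
    ext a
    simp only [mem_filter, mem_univ, true_and, Ne, pure_iff]
  have key1 : finsuppAntidiag (univ : Finset (Fin (n + 1))) d = Z' ∪ N ∪
      ((univ : Finset (Fin (n + 1))).image (fun i => (Finsupp.single i d : Fin (n + 1) →₀ ℕ))) := by
    ext a
    simp only [hZ', hN, mem_union, mem_filter, mem_antidiag, mem_univ, not_true_eq_false,
      false_implies, implies_true, and_true, mem_image, true_and]
    constructor
    · intro h1
      by_cases h2 : ∃ i, Finsupp.single i d = a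
      · exact Or.inr h2
      · push Not at h2
        left
        by_cases h3 : ∃ j, d ≤ fexp n d q b j + a j
        · exact Or.inl ⟨h1, fun i => (h2 i).symm, h3⟩
        · push Not at h3
          exact Or.inr ⟨h1, fun i => (h2 i).symm, h3⟩
    · rintro ((⟨h1, _⟩ | ⟨h1, _⟩) | ⟨i, rfl⟩)
      · exact h1
      · exact h1
      · exact Finsupp.degree_single _ _
  have hd1 : Disjoint Z' N := by
    rw [disjoint_left]
    intro a ha hb
    obtain ⟨_, j, hj⟩ := (mem_filter.1 ha).2
    have := (mem_filter.1 hb).2.2 j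
    omega
  have hd2 : Disjoint (Z' ∪ N) ((univ : Finset (Fin (n + 1))).image
      (fun i => (Finsupp.single i d : Fin (n + 1) →₀ ℕ))) := by
    rw [disjoint_left]
    intro a ha hb
    obtain ⟨i, _, rfl⟩ := mem_image.1 hb
    rcases mem_union.1 ha with h | h
    · exact (mem_filter.1 h).2.1 i rfl
    · exact (mem_filter.1 h).2.1 i rfl
  have e1 := congrArg Finset.card key1
  rw [card_union_of_disjoint hd2, card_union_of_disjoint hd1, hM, hQ] at e1
  have key2 : finsuppAntidiag (Ici qi) d = N ∪
      ((finsuppAntidiag (Ici qi) d).filter (fun a => d - (q + b) ≤ a qi)) ∪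
      ((Ioi qi).image (fun i => (Finsupp.single i d : Fin (n + 1) →₀ ℕ))) := by
    ext a
    simp only [hN, mem_union, mem_filter, mem_antidiag, mem_univ, not_true_eq_false, false_implies,
      implies_true, and_true, mem_image, mem_Ioi, mem_Ici]
    constructor
    · rintro ⟨h1, h2⟩
      by_cases h3 : d - (q + b) ≤ a qi
      · exact Or.inl (Or.inr ⟨⟨h1, h2⟩, h3⟩)
      by_cases h4 : ∃ i, qi < i ∧ d ≤ a i
      · obtain ⟨i, hi, h5⟩ := h4
        exact Or.inr ⟨i, hi, (eq_single h1 h5).symm⟩
      push Not at h4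
      left; left
      have h6 : ∀ i : Fin (n + 1), i.1 < q → a i = 0 := fun i hi =>
        h2 i (by rw [Fin.le_def]; simp only [hqi]; omega)
      refine ⟨h1, fun i hai => ?_, fun i => ?_⟩
      · have h7 : a i = d := by rw [hai, Finsupp.single_eq_same]
        rcases lt_trichotomy i.1 q with h | h | h
        · rw [h6 i h] at h7; omega
        · have : i = qi := Fin.ext h
          rw [this] at h7; omega
        · have := h4 i (by rw [Fin.lt_def]; exact h)
          omega
      · rw [fexp_apply]
        split_ifs with h5 h7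
        · rw [h6 i h5]; omega
        · have : i = qi := Fin.ext h7
          rw [this]; omega
        · have := h4 i (by rw [Fin.lt_def]; simp only [hqi]; omega)
          omega
    · rintro ((⟨h1, _, h2⟩ | ⟨⟨h1, h2⟩, h3⟩) | ⟨i, hi, rfl⟩)
      · refine ⟨h1, fun i hi => ?_⟩
        have h3 := h2 i
        rw [fexp_apply] at h3
        rw [Fin.le_def] at hi
        simp only [hqi] at hi
        rw [if_pos (by omega)] at h3
        omega
      · exact ⟨h1, h2⟩
      · refine ⟨Finsupp.degree_single _ _, fun j hj => ?_⟩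
        rw [Finsupp.single_apply, if_neg]
        rintro rfl
        exact hj hi.le
  have hdis1 : Disjoint N
      ((finsuppAntidiag (Ici qi) d).filter (fun a => d - (q + b) ≤ a qi)) := by
    rw [disjoint_left]
    intro a ha hb
    have h1 := (mem_filter.1 ha).2.2 qi
    have h2 := (mem_filter.1 hb).2
    rw [fexp_apply] at h1
    simp only [hqi, lt_irrefl, if_false, if_true] at h1 h2
    omega
  have hdis2 : Disjoint (N ∪
      ((finsuppAntidiag (Ici qi) d).filter (fun a => d - (q + b) ≤ a qi)))
      ((Ioi qi).image (fun i => (Finsupp.single i d : Fin (n + 1) →₀ ℕ))) := by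
    rw [disjoint_left]
    intro a ha hb
    obtain ⟨i, hi, rfl⟩ := mem_image.1 hb
    rw [mem_Ioi, Fin.lt_def] at hi
    rcases mem_union.1 ha with h | h
    · exact (mem_filter.1 h).2.1 i rfl
    · have h1 := (mem_filter.1 h).2
      rw [Finsupp.single_apply, if_neg] at h1
      · omega
      · rintro rfl
        exact lt_irrefl _ hi
  have e2 := congrArg Finset.card key2
  rw [card_union_of_disjoint hdis2, card_union_of_disjoint hdis1, hA, hB, hP] at e2
  omega

end Pool.TH855.Veronese
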