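import Mathlib

set_option autoImplicit false

namespace Pool.TH855.Veronese

open MvPolynomial

/-- The monomials of degree `d` in `x_0, …, x_n`, as exponent vectors.  They are a basis of the
space `S^d U` of forms of degree `d` on `P^n`. -/
@[ext]
structure Mon (n d : ℕ) : Type where
  /-- the exponent vector -/
  exp : Fin (n + 1) →₀ ℕ
  /-- the degree is `d` -/
  degree_exp : exp.degree = d

lemma Mon.exp_injective (n d : ℕ) : Function.Injective (Mon.exp : Mon n d → _) :=
  fun _ _ h => Mon.ext h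

instance (n d : ℕ) : Finite (Mon n d) := by
  have h : Set.Finite {a : Fin (n + 1) →₀ ℕ | a.degree = d} := by
    apply (Finset.finite_toSet (Finset.finsuppAntidiag Finset.univ d)).subset
    intro a ha
    simp only [Finset.mem_coe, Finset.mem_finsuppAntidiag, Finset.subset_univ, and_true]
    rw [← Finsupp.degree_eq_sum]
    exact ha
  have := h.to_subtype
  exact Finite.of_injective
    (fun a : Mon n d => (⟨a.exp, a.degree_exp⟩ : {a : Fin (n + 1) →₀ ℕ | a.degree = d}))
    fun a b h => Mon.ext (congrArg Subtype.val h)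

noncomputable instance (n d : ℕ) : Fintype (Mon n d) := Fintype.ofFinite _

variable (k : Type) [Field k] (n d : ℕ)

/-- Families of polynomials indexed by the finite sets `T` of monomials of degree `d`; the family
`c` stands for the element `∑_T e_T ⊗ c T` of `Λ(S^d U) ⊗ S`, `e_T` being the wedge product of the
elements of `T` in increasing order. -/
abbrev Fam : Type := Finset (Mon n d) → MvPolynomial (Fin (n + 1)) k

/-- `Λ^p(S^d U) ⊗ S^m U`. -/
def chains (p m : ℕ) : Submodule k (Fam k n d) where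
  carrier := {c | (∀ T, T.card ≠ p → c T = 0) ∧ ∀ T, (c T).IsHomogeneous m}
  add_mem' := by
    rintro c c' ⟨h1, h2⟩ ⟨h1', h2'⟩
    refine ⟨fun T hT => ?_, fun T => (h2 T).add (h2' T)⟩
    simp [h1 T hT, h1' T hT]
  zero_mem' := ⟨fun _ _ => rfl, fun _ => isHomogeneous_zero _ _ _⟩
  smul_mem' := by
    rintro r c ⟨h1, h2⟩
    refine ⟨fun T hT => ?_, fun T => ?_⟩
    · simp [h1 T hT]
    · simp only [Pi.smul_apply, smul_eq_C_mul]
      simpa using (isHomogeneous_C (Fin (n + 1)) r).mul (h2 T)

variable [LinearOrder (Mon n d)]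

open Classical in
/-- The Koszul differential `e_{a_1} ∧ … ∧ e_{a_p} ⊗ f ↦ ∑ (-1)^{i+1} e_{a_1} ∧ … ê_{a_i} … ∧ e_{a_p}
⊗ a_i f`, in coordinates. -/
noncomputable def diff : Fam k n d →ₗ[k] Fam k n d where
  toFun c T := ∑ a ∈ Tᶜ, (-1) ^ (T.filter (· < a)).card * (monomial a.exp 1 * c (insert a T))
  map_add' c c' := by
    funext T
    simp only [Pi.add_apply, mul_add, Finset.sum_add_distrib]
  map_smul' r c := by
    funext T
    simp only [Pi.smul_apply, RingHom.id_apply, Finset.smul_sum, smul_eq_C_mul]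
    refine Finset.sum_congr rfl fun a _ => ?_
    ring

/-- Cycles in `Λ^p(S^d U) ⊗ S^m U`. -/
noncomputable def cycles (p m : ℕ) : Submodule k (Fam k n d) :=
  chains k n d p m ⊓ LinearMap.ker (diff k n d)

/-- The Koszul cohomology group `K_{p,q}(P^n, b; d)`, `q ≥ 1`: the cohomology at the middle term of
`Λ^{p+1}(S^d U) ⊗ S^{(q-1)d+b} U → Λ^p(S^d U) ⊗ S^{qd+b} U → Λ^{p-1}(S^d U) ⊗ S^{(q+1)d+b} U`. -/
abbrev Kpq (b p q : ℕ) : Type :=
  ↥(cycles k n d p (q * d + b)) ⧸
    ((chains k n d (p + 1) ((q - 1) * d + b)).map (diff k n d)).submoduleOf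
      (cycles k n d p (q * d + b))

end Pool.TH855.Veronese
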