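import Pool.Agent.TH855.Veronese.Lift

set_option autoImplicit false

namespace Pool.TH855.Veronese

open MvPolynomial Finset

variable {k : Type} [Field k] {n d : ℕ} [LinearOrder (Mon n d)]

/-- the coefficient of `x^f e_T` in a boundary vanishes if `T` contains all monomials of degree `d`
dividing `x^f` -/
lemma coeff_diff (f : Fin (n + 1) →₀ ℕ) (T : Finset (Mon n d)) (hT : ∀ a : Mon n d, a.exp ≤ f → a ∈ T)
    (c : Fam k n d) : coeff f (diff k n d c T) = 0 := by
  rw [diff_apply, coeff_sum]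
  apply sum_eq_zero
  intro a ha
  rw [mem_compl] at ha
  have h1 : ¬ a.exp ≤ f := fun h => ha (hT a h)
  rcases sg_eq (k := k) a T with hs | hs
  · rw [hs, one_mul, coeff_monomial_mul', if_neg h1]
  · rw [hs, neg_one_mul, coeff_neg, coeff_monomial_mul', if_neg h1, neg_zero]

/-- the coefficient functional on cycles -/
noncomputable def phi (f : Fin (n + 1) →₀ ℕ) (T : Finset (Mon n d)) (p m : ℕ) :
    ↥(cycles k n d p m) →ₗ[k] k where
  toFun c := coeff f (c.1 T)
  map_add' c c' := by simp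
  map_smul' r c := by simp

theorem rank_bound (f : Fin (n + 1) →₀ ℕ) (b p q : ℕ) (hf : f.degree = q * d + b)
    (D Z : Finset (Mon n d)) (j : Mon n d → Fin (n + 1))
    (hj : ∀ a ∈ Z, d ≤ f (j a) + a.exp (j a)) (hZ : ∀ a ∈ Z, ∀ i, a ≠ pure n d i)
    (hD : ∀ a : Mon n d, a.exp ≤ f → a ∈ D) (hDZ : D ⊆ Z) (h1 : D.card ≤ p) :
    (((Z.card - D.card).choose (p - D.card) : ℕ) : Cardinal) ≤
      Module.rank k (Kpq k n d b p q) := by
  classical
  set ι := {T // T ∈ (Z \ D).powersetCard (p - D.card)} with hι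
  have hl : ∀ T : ι, D ∪ T.1 ⊆ Z ∧ (D ∪ T.1).card = p := by
    intro T
    obtain ⟨h3, h4⟩ := mem_powersetCard.1 T.2
    refine ⟨union_subset hDZ (h3.trans sdiff_subset), ?_⟩
    rw [card_union_of_disjoint, h4]
    · omega
    · exact disjoint_of_subset_right h3 disjoint_sdiff
  have hc : ∀ T : ι, ∃ c : ↥(cycles k n d p (q * d + b)),
      (∀ T', c.1 T' ≠ 0 → T'.card = p ∧ ∀ a ∈ T', a ∈ D ∪ T.1 ∨ ∃ i, a = pure n d i) ∧
      ∃ ε : k, ε ≠ 0 ∧ c.1 (D ∪ T.1) = monomial f ε := by
    intro T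
    obtain ⟨c, g1, g2, g3, g4⟩ := exists_cycle (k := k) f Z j hj hZ (D ∪ T.1) (hl T).1
    have g2' : ∀ T', c T' ≠ 0 → T'.card = p ∧ ∀ a ∈ T', a ∈ D ∪ T.1 ∨ ∃ i, a = pure n d i := by
      intro T' hT'
      obtain ⟨g5, g6⟩ := g2 T' hT'
      exact ⟨g5.trans (hl T).2, g6⟩
    refine ⟨⟨c, ?_, ?_⟩, g2', g4⟩
    · refine ⟨fun T' hT' => ?_, fun T' => ?_⟩
      · by_contra hne
        exact hT' (g2' T' hne).1
      · rcases g3 T' with h0 | ⟨e, ε, he1, _, he3⟩
        · rw [h0]; exact isHomogeneous_zero _ _ _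
        · rw [he3]
          exact isHomogeneous_monomial _ (he1.trans hf)
    · exact LinearMap.mem_ker.2 g1
  choose v hv1 hv2 using hc
  set B := ((chains k n d (p + 1) ((q - 1) * d + b)).map (diff k n d)).submoduleOf
      (cycles k n d p (q * d + b)) with hB
  have hphi : ∀ T : ι, B ≤ LinearMap.ker (phi (k := k) f (D ∪ T.1) p (q * d + b)) := by
    intro T c hc
    rw [hB, Submodule.submoduleOf, Submodule.mem_comap] at hc
    obtain ⟨c', _, hc'⟩ := hc
    change diff k n d c' = c.1 at hc'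
    rw [LinearMap.mem_ker]
    show coeff f (c.1 (D ∪ T.1)) = 0
    rw [← hc']
    exact coeff_diff f _ (fun a ha => mem_union_left _ (hD a ha)) c'
  have hdelta : ∀ T T' : ι, T ≠ T' → (v T).1 (D ∪ T'.1) = 0 := by
    intro T T' hne
    by_contra h0
    obtain ⟨_, h5⟩ := hv1 T _ h0
    have h6 : D ∪ T'.1 ⊆ D ∪ T.1 := by
      intro a ha
      rcases h5 a ha with h | ⟨i, h⟩
      · exact h
      · exact absurd h (hZ a ((hl T').1 ha) i)
    have h7 := eq_of_subset_of_card_le h6 (by rw [(hl T).2, (hl T').2])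
    apply hne
    apply Subtype.ext
    have h8 : ∀ S : ι, S.1 = (D ∪ S.1) \ D := by
      intro S
      have h9 : Disjoint D S.1 :=
        disjoint_of_subset_right (mem_powersetCard.1 S.2).1 disjoint_sdiff
      rw [union_sdiff_left, Finset.sdiff_eq_self_of_disjoint h9.symm]
    rw [h8 T, h8 T', h7]
  have hli : LinearIndependent k (fun T : ι => (Submodule.Quotient.mk (v T) : _ ⧸ B)) := by
    rw [linearIndependent_iff']
    intro s g hg T hT
    have h10 := congrArg (B.liftQ (phi (k := k) f (D ∪ T.1) p (q * d + b)) (hphi T)) hg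
    rw [map_sum, map_zero] at h10
    have h11 : ∀ T' ∈ s, (B.liftQ (phi (k := k) f (D ∪ T.1) p (q * d + b)) (hphi T))
        (g T' • (Submodule.Quotient.mk (v T') : _ ⧸ B)) =
        g T' * coeff f ((v T').1 (D ∪ T.1)) := by
      intro T' _
      rw [map_smul]
      rfl
    rw [sum_congr rfl h11, sum_eq_single_of_mem T hT] at h10
    · obtain ⟨ε, hε, h12⟩ := hv2 T
      rw [h12, coeff_monomial, if_pos rfl] at h10
      exact (mul_eq_zero.1 h10).resolve_right hε
    · intro T' _ hne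
      rw [hdelta T' T hne, coeff_zero, mul_zero]
  have h13 := hli.cardinal_le_rank
  refine le_trans (le_of_eq ?_) h13
  rw [hι, Cardinal.mk_coe_finset, card_powersetCard, card_sdiff_of_subset hDZ]

end Pool.TH855.Veronese
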