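import Pool.Agent.TH855.Veronese.Wedge

set_option autoImplicit false

namespace Pool.TH855.Veronese

open MvPolynomial Finset

variable {k : Type} [Field k] {n d : ℕ} [LinearOrder (Mon n d)]

/-- `x_i^d` -/
noncomputable def pure (n d : ℕ) (i : Fin (n + 1)) : Mon n d :=
  ⟨Finsupp.single i d, Finsupp.degree_single _ _⟩

lemma wedge_congr {a : Mon n d} {c c' : Fam k n d} (h : ∀ T, a ∉ T → c T = c' T) :
    wedge a c = wedge a c' := by
  funext T
  unfold wedge
  split_ifs with ha
  · rw [h _ (notMem_erase _ _)]
  · rfl

/-- explicit cycles -/
lemma exists_cycle (f : Fin (n + 1) →₀ ℕ) (Z : Finset (Mon n d)) (j : Mon n d → Fin (n + 1))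
    (hj : ∀ a ∈ Z, d ≤ f (j a) + a.exp (j a)) (hZ : ∀ a ∈ Z, ∀ i, a ≠ pure n d i) :
    ∀ l : Finset (Mon n d), l ⊆ Z → ∃ c : Fam k n d, diff k n d c = 0 ∧
      (∀ T, c T ≠ 0 → T.card = l.card ∧ ∀ a ∈ T, a ∈ l ∨ ∃ i, a = pure n d i) ∧
      (∀ T, c T = 0 ∨ ∃ (e : Fin (n + 1) →₀ ℕ) (ε : k), e.degree = f.degree ∧
        (∀ i, pure n d i ∉ T → f i ≤ e i) ∧ c T = monomial e ε) ∧
      ∃ ε : k, ε ≠ 0 ∧ c l = monomial f ε := by
  classical
  intro l
  induction l using Finset.induction_on with
  | empty =>
    intro _
    refine ⟨fun T => if T = ∅ then monomial f 1 else 0, ?_, ?_, ?_, 1, one_ne_zero, by simp⟩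
    · funext T
      rw [diff_apply]
      apply sum_eq_zero
      intro a _
      rw [if_neg (insert_ne_empty a T)]
      simp
    · intro T hT
      have : T = ∅ := by
        by_contra h
        exact hT (by simp [h])
      subst this
      simp
    · intro T
      by_cases h : T = ∅
      · right
        exact ⟨f, 1, rfl, fun _ _ => le_rfl, by simp [h]⟩
      · left
        simp [h]
  | insert a l hal ih =>
    intro hl
    obtain ⟨c, h1, h2, h3, ε₀, hε₀, h4⟩ := ih fun x hx => hl (mem_insert_of_mem hx)
    have haZ : a ∈ Z := hl (mem_insert_self _ _)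
    set P : Mon n d := pure n d (j a) with hP
    have haP : ∀ i, a ≠ pure n d i := hZ a haZ
    -- the quotient
    have hq : ∀ T, ∃ y : MvPolynomial (Fin (n + 1)) k, (P ∈ T → y = 0) ∧ (c T = 0 → y = 0) ∧
        (P ∉ T → monomial P.exp 1 * y = monomial a.exp 1 * c T) ∧
        (y = 0 ∨ ∃ (e : Fin (n + 1) →₀ ℕ) (ε : k), e.degree = f.degree ∧
          (∀ i, i ≠ j a → pure n d i ∉ T → f i ≤ e i) ∧ y = monomial e ε) := by
      intro T
      by_cases hPT : P ∈ T
      · exact ⟨0, fun _ => rfl, fun _ => rfl, fun h => absurd hPT h, Or.inl rfl⟩
      rcases h3 T with h0 | ⟨e, ε, he1, he2, he3⟩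
      · exact ⟨0, fun _ => rfl, fun _ => rfl, fun _ => by rw [h0]; simp, Or.inl rfl⟩
      · have hle : P.exp ≤ e + a.exp := by
          intro i
          simp only [hP, pure, Finsupp.add_apply, Finsupp.single_apply]
          split_ifs with h
          · subst h
            have h5 := he2 (j a) hPT
            have h6 := hj a haZ
            omega
          · exact Nat.zero_le _
        have hadd : P.exp + (e + a.exp - P.exp) = e + a.exp := add_tsub_cancel_of_le hle
        by_cases hε : ε = 0
        · refine ⟨0, fun _ => rfl, fun _ => rfl, fun _ => ?_, Or.inl rfl⟩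
          rw [he3, hε]
          simp
        refine ⟨monomial (e + a.exp - P.exp) ε, fun h => absurd h hPT, fun h => ?_, fun _ => ?_,
          Or.inr ⟨e + a.exp - P.exp, ε, ?_, ?_, rfl⟩⟩
        · rw [he3] at h
          exact absurd (monomial_eq_zero.1 h) hε
        · rw [he3, monomial_mul, monomial_mul, hadd, add_comm a.exp e]
        · have h7 := congrArg Finsupp.degree hadd
          rw [map_add, map_add, P.degree_exp, a.degree_exp] at h7
          omega
        · intro i hi hiT
          have h8 := he2 i hiT
          have h9 : P.exp i = 0 := by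
            simp only [hP, pure, Finsupp.single_apply]
            rw [if_neg (Ne.symm hi)]
          simp only [Finsupp.tsub_apply, Finsupp.add_apply, h9]
          omega
    choose q hq1 hq2 hq3 hq4 using hq
    -- boundary computations
    have hd1 : diff k n d (wedge a c) = fun T => monomial a.exp 1 * c T := by
      funext T
      rw [diff_wedge, h1]
      simp [wedge]
    have hd2 : diff k n d (wedge P q) = fun T => monomial a.exp 1 * c T := by
      have e1 : wedge P (fun T => monomial P.exp 1 * q T) =
          wedge P (fun T => monomial a.exp 1 * c T) := wedge_congr fun T hT => hq3 T hT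
      have e2 : ∀ (g : MvPolynomial (Fin (n + 1)) k) (b : Fam k n d),
          diff k n d (fun T => g * b T) = fun T => g * diff k n d b T := by
        intro g b
        funext T
        rw [diff_apply, diff_apply, mul_sum]
        refine sum_congr rfl fun s _ => ?_
        ring
      have e3 : ∀ (g : MvPolynomial (Fin (n + 1)) k) (b : Fam k n d),
          wedge P (fun T => g * b T) = fun T => g * wedge P b T := by
        intro g b
        funext T
        unfold wedge
        split_ifs
        · ring
        · simp
      have e4 : (fun T => monomial P.exp (1 : k) * diff k n d (wedge P q) T) =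
          fun T => monomial P.exp 1 * (monomial a.exp 1 * c T) := by
        rw [← e2, ← e3, e1]
        funext T
        rw [diff_wedge]
        have e5 : diff k n d (fun T => monomial a.exp 1 * c T) = 0 := by
          rw [e2, h1]
          funext T
          simp
        rw [e5]
        simp [wedge]
      funext T
      have e6 := congrFun e4 T
      have hne : (monomial P.exp (1 : k)) ≠ 0 := by
        rw [Ne, monomial_eq_zero]
        exact one_ne_zero
      exact mul_left_cancel₀ hne e6
    have hwa : ∀ T, a ∉ T → wedge a c T = 0 := fun T hT => by unfold wedge; rw [if_neg hT]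
    have hwP : ∀ T, P ∉ T → wedge P q T = 0 := fun T hT => by unfold wedge; rw [if_neg hT]
    have hwaP : ∀ T, a ∈ T → wedge P q T = 0 := by
      intro T hT
      by_cases hPT : P ∈ T
      · unfold wedge
        rw [if_pos hPT]
        have : c (T.erase P) = 0 := by
          by_contra hne
          rcases (h2 _ hne).2 a (mem_erase.2 ⟨haP _, hT⟩) with h | ⟨i, h⟩
          · exact hal h
          · exact haP i h
        rw [hq2 _ this, mul_zero]
      · exact hwP T hPT
    refine ⟨wedge a c - wedge P q, ?_, ?_, ?_, ?_⟩
    · rw [map_sub, hd1, hd2, sub_self]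
    · intro T hT
      by_cases haT : a ∈ T
      · have e1 : (wedge a c - wedge P q) T = sg k a T * c (T.erase a) := by
          rw [Pi.sub_apply, hwaP T haT, sub_zero]
          unfold wedge
          rw [if_pos haT]
        rw [e1] at hT
        have hc := right_ne_zero_of_mul hT
        obtain ⟨g1, g2⟩ := h2 _ hc
        rw [card_erase_of_mem haT] at g1
        have hpos : 0 < T.card := card_pos.2 ⟨a, haT⟩
        refine ⟨by rw [card_insert_of_notMem hal]; omega, fun b hb => ?_⟩
        by_cases hba : b = a
        · left; rw [hba]; exact mem_insert_self _ _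
        · rcases g2 b (mem_erase.2 ⟨hba, hb⟩) with h | h
          · exact Or.inl (mem_insert_of_mem h)
          · exact Or.inr h
      · have hPT : P ∈ T := by
          by_contra hPT
          apply hT
          rw [Pi.sub_apply, hwa T haT, hwP T hPT, sub_zero]
        have e1 : (wedge a c - wedge P q) T = - (sg k P T * q (T.erase P)) := by
          rw [Pi.sub_apply, hwa T haT, zero_sub]
          unfold wedge
          rw [if_pos hPT]
        rw [e1] at hT
        have hc := right_ne_zero_of_mul (neg_ne_zero.1 hT)
        have hc' : c (T.erase P) ≠ 0 := fun h => hc (hq2 _ h)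
        obtain ⟨g1, g2⟩ := h2 _ hc'
        rw [card_erase_of_mem hPT] at g1
        have hpos : 0 < T.card := card_pos.2 ⟨P, hPT⟩
        refine ⟨by rw [card_insert_of_notMem hal]; omega, fun b hb => ?_⟩
        by_cases hbP : b = P
        · right; exact ⟨j a, hbP⟩
        · rcases g2 b (mem_erase.2 ⟨hbP, hb⟩) with h | h
          · exact Or.inl (mem_insert_of_mem h)
          · exact Or.inr h
    · intro T
      by_cases haT : a ∈ T
      · have e1 : (wedge a c - wedge P q) T = sg k a T * c (T.erase a) := by
          rw [Pi.sub_apply, hwaP T haT, sub_zero]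
          unfold wedge
          rw [if_pos haT]
        rw [e1]
        rcases h3 (T.erase a) with h0 | ⟨e, ε, he1, he2, he3⟩
        · left; rw [h0, mul_zero]
        · right
          rcases sg_eq (k := k) a T with hs | hs
          · refine ⟨e, ε, he1, fun i hi => he2 i fun h => hi (mem_of_mem_erase h), ?_⟩
            rw [hs, he3, one_mul]
          · refine ⟨e, -ε, he1, fun i hi => he2 i fun h => hi (mem_of_mem_erase h), ?_⟩
            rw [hs, he3, neg_one_mul, map_neg]
      · by_cases hPT : P ∈ T
        · have e1 : (wedge a c - wedge P q) T = - (sg k P T * q (T.erase P)) := by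
            rw [Pi.sub_apply, hwa T haT, zero_sub]
            unfold wedge
            rw [if_pos hPT]
          rw [e1]
          rcases hq4 (T.erase P) with h0 | ⟨e, ε, he1, he2, he3⟩
          · left; rw [h0, mul_zero, neg_zero]
          · right
            have hcond : ∀ i, pure n d i ∉ T → f i ≤ e i := by
              intro i hi
              apply he2 i
              · rintro rfl
                exact hi hPT
              · exact fun h => hi (mem_of_mem_erase h)
            rcases sg_eq (k := k) P T with hs | hs
            · exact ⟨e, -ε, he1, hcond, by rw [hs, he3, one_mul, map_neg]⟩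
            · exact ⟨e, ε, he1, hcond, by rw [hs, he3, neg_one_mul, neg_neg]⟩
        · left
          rw [Pi.sub_apply, hwa T haT, hwP T hPT, sub_zero]
    · have e1 : (wedge a c - wedge P q) (insert a l) = sg k a (insert a l) * c l := by
        rw [Pi.sub_apply, hwaP _ (mem_insert_self _ _), sub_zero]
        unfold wedge
        rw [if_pos (mem_insert_self _ _), erase_insert hal]
      rw [e1, h4]
      rcases sg_eq (k := k) a (insert a l) with hs | hs
      · exact ⟨ε₀, hε₀, by rw [hs, one_mul]⟩
      · exact ⟨-ε₀, neg_ne_zero.2 hε₀, by rw [hs, neg_one_mul, map_neg]⟩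

end Pool.TH855.Veronese
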