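import Pool.Agent.TH855.Veronese.Count

set_option autoImplicit false

namespace Pool.TH855.Veronese

open MvPolynomial Finset

theorem main (k : Type) [Field k] (n d b q p : ℕ) (hq1 : 1 ≤ q) (hqn : q ≤ n)
    (hd : b + q + 1 ≤ d) [LinearOrder (Mon n d)] (lam mu : ℕ)
    (hlam : (lam : ℤ) = (d + q).choose q - (d - b - 1).choose q - q)
    (hmu : (mu : ℤ) = (d + n).choose n - (d + n - q).choose (n - q) + (n + b).choose (n - q) - q - 1)
    (hp : lam ≤ p) :
    (((mu - lam).choose (p - lam) : ℕ) : Cardinal) ≤ Module.rank k (Kpq k n d b p q) := by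
  classical
  have e1 := card_DD q b hqn hd
  have e2 := card_ZZ q b hqn hd
  have hD : (DD n d q b).card = lam := by
    have : ((DD n d q b).card : ℤ) + (d - b - 1).choose q + q = (d + q).choose q := by
      exact_mod_cast e1
    omega
  have hZ : (ZZ n d q b).card = mu := by
    have : ((ZZ n d q b).card : ℤ) + (d + n - q).choose (n - q) + q + 1 =
      (d + n).choose n + (n + b).choose (n - q) := by exact_mod_cast e2
    omega
  have hj : ∀ a : Mon n d, ∃ j : Fin (n + 1), a ∈ ZZ n d q b → d ≤ fexp n d q b j + a.exp j := by
    intro a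
    by_cases h : a ∈ ZZ n d q b
    · obtain ⟨j, hj⟩ := (mem_ZZ.1 h).2
      exact ⟨j, fun _ => hj⟩
    · exact ⟨0, fun h' => absurd h' h⟩
  choose j hj using hj
  have hDZ : DD n d q b ⊆ ZZ n d q b := by
    intro a ha
    have h1 : a.exp ≤ fexp n d q b := mem_DD.1 ha
    refine mem_ZZ.2 ⟨fun i hi => ?_, ?_⟩
    · have h2 := h1 i
      rw [(pure_iff a i).1 hi, Finsupp.single_eq_same, fexp_apply] at h2
      split_ifs at h2 <;> omega
    · by_contra hcon
      push Not at hcon
      have h3 : ∀ i : Fin (n + 1), i.1 < q → a.exp i = 0 := by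
        intro i hi
        have := hcon i
        rw [fexp_apply, if_pos hi] at this
        omega
      have h4 : a.exp.degree ≤ q + b := by
        rw [Finsupp.degree_eq_sum]
        calc ∑ i, a.exp i ≤ ∑ i : Fin (n + 1), (if i = (⟨q, by omega⟩ : Fin (n + 1)) then q + b else 0) := by
              apply sum_le_sum
              intro i _
              have h5 := h1 i
              rw [fexp_apply] at h5
              by_cases hi : i.1 < q
              · rw [h3 i hi]; exact Nat.zero_le _
              · rw [if_neg hi] at h5
                by_cases hi2 : i.1 = q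
                · rw [if_pos hi2] at h5
                  rw [if_pos (Fin.ext hi2)]
                  exact h5
                · rw [if_neg hi2] at h5
                  omega
          _ = q + b := by simp
      rw [a.degree_exp] at h4
      omega
  have := rank_bound (k := k) (fexp n d q b) b p q (degree_fexp q b hqn (by omega))
    (DD n d q b) (ZZ n d q b) j (fun a ha => hj a ha) (fun a ha => (mem_ZZ.1 ha).1)
    (fun a ha => mem_DD.2 ha) hDZ (by rw [hD]; exact hp)
  rwa [hD, hZ] at this

end Pool.TH855.Veronese
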