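import Pool.Agent.TH855.Veronese.Defs

set_option autoImplicit false

namespace Pool.TH855.Veronese

open MvPolynomial Finset

variable {k : Type} [Field k] {n d : ℕ} [LinearOrder (Mon n d)]

/-- sign -/
noncomputable def sg (k : Type) [Field k] {n d : ℕ} [LinearOrder (Mon n d)]
    (a : Mon n d) (T : Finset (Mon n d)) : MvPolynomial (Fin (n + 1)) k :=
  (-1) ^ (T.filter (· < a)).card

lemma sg_mul_self (a : Mon n d) (T : Finset (Mon n d)) : sg k a T * sg k a T = 1 := by
  unfold sg
  rw [← mul_pow]
  simp

lemma sg_eq (a : Mon n d) (T : Finset (Mon n d)) : sg k a T = 1 ∨ sg k a T = -1 := neg_one_pow_eq_or _ _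

lemma sg_erase (a : Mon n d) (T : Finset (Mon n d)) : sg k a (T.erase a) = sg k a T := by
  unfold sg
  congr 2
  ext b
  simp only [mem_filter, mem_erase]
  constructor
  · rintro ⟨⟨_, h⟩, h2⟩; exact ⟨h, h2⟩
  · rintro ⟨h, h2⟩; exact ⟨⟨h2.ne, h⟩, h2⟩

lemma sg_insert_self (a : Mon n d) (T : Finset (Mon n d)) : sg k a (insert a T) = sg k a T := by
  unfold sg
  congr 2
  ext b
  simp only [mem_filter, mem_insert]
  constructor
  · rintro ⟨h | h, h2⟩
    · exact absurd h2 (by rw [h]; exact lt_irrefl _)
    · exact ⟨h, h2⟩
  · rintro ⟨h, h2⟩; exact ⟨Or.inr h, h2⟩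

lemma sg_insert_lt {a s : Mon n d} {T : Finset (Mon n d)} (hs : s ∉ T) (h : s < a) :
    sg k a (insert s T) = - sg k a T := by
  unfold sg
  rw [filter_insert, if_pos h, card_insert_of_notMem (by simp [hs]), pow_succ]
  ring

lemma sg_insert_gt {a s : Mon n d} {T : Finset (Mon n d)} (h : a < s) :
    sg k a (insert s T) = sg k a T := by
  unfold sg
  rw [filter_insert, if_neg (not_lt.2 h.le)]

lemma diff_apply (c : Fam k n d) (T : Finset (Mon n d)) :
    diff k n d c T = ∑ a ∈ Tᶜ, sg k a T * (monomial a.exp 1 * c (insert a T)) := by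
  classical
  unfold diff sg
  simp only [LinearMap.coe_mk, AddHom.coe_mk]

/-- wedge product with `e_a` on the left -/
noncomputable def wedge (a : Mon n d) (c : Fam k n d) : Fam k n d := fun T =>
  if a ∈ T then sg k a T * c (T.erase a) else 0

lemma diff_wedge (a : Mon n d) (c : Fam k n d) (T : Finset (Mon n d)) :
    diff k n d (wedge a c) T = monomial a.exp 1 * c T - wedge a (diff k n d c) T := by
  rw [diff_apply]
  by_cases ha : a ∈ T
  · -- `a ∈ T`
    have h2 : wedge a (diff k n d c) T = sg k a T *
        ∑ s ∈ (T.erase a)ᶜ, sg k s (T.erase a) * (monomial s.exp 1 * c (insert s (T.erase a))) := by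
      unfold wedge
      rw [if_pos ha, diff_apply]
    have h3 : (T.erase a)ᶜ = insert a Tᶜ := by
      ext b
      simp only [mem_compl, mem_erase, mem_insert]
      tauto
    rw [h2, h3, sum_insert (by simpa using ha), insert_erase ha, sg_erase, mul_add]
    have h4 : sg k a T * (sg k a T * (monomial a.exp 1 * c T)) = monomial a.exp 1 * c T := by
      rw [← mul_assoc, sg_mul_self, one_mul]
    rw [h4, sub_add_eq_sub_sub, sub_self, zero_sub, mul_sum, ← sum_neg_distrib]
    apply sum_congr rfl
    intro s hs
    rw [mem_compl] at hs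
    have hsa : s ≠ a := fun h => hs (h ▸ ha)
    have h5 : wedge a c (insert s T) = sg k a (insert s T) * c (insert s (T.erase a)) := by
      unfold wedge
      rw [if_pos (mem_insert_of_mem ha), erase_insert_of_ne (Ne.symm hsa).symm]
    rw [h5]
    rcases lt_or_gt_of_ne hsa with h | h
    · -- s < a
      rw [sg_insert_lt hs h]
      have : sg k s (T.erase a) = sg k s T := by
        conv_rhs => rw [← insert_erase ha]
        rw [sg_insert_gt h]
      rw [this]
      ring
    · rw [sg_insert_gt h]
      have : sg k s T = - sg k s (T.erase a) := by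
        conv_lhs => rw [← insert_erase ha]
        rw [sg_insert_lt (by simp) h]
      rw [this]
      ring
  · -- `a ∉ T`
    have h1 : wedge a (diff k n d c) T = 0 := by
      unfold wedge; rw [if_neg ha]
    rw [h1, sub_zero, sum_eq_single_of_mem a (by simpa using ha)]
    · unfold wedge
      rw [if_pos (mem_insert_self _ _), erase_insert ha, sg_insert_self]
      calc sg k a T * (monomial a.exp 1 * (sg k a T * c T)) =
            (sg k a T * sg k a T) * (monomial a.exp 1 * c T) := by ring
        _ = _ := by rw [sg_mul_self, one_mul]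
    · intro s hs hsa
      have : a ∉ insert s T := by
        rw [mem_insert]
        rintro (h | h)
        · exact hsa h.symm
        · exact ha h
      unfold wedge
      rw [if_neg this]
      simp

end Pool.TH855.Veronese
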